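import Pool.Agent.H631.PM.Defs

namespace PMin

/-! TARGET: prove the following -/

theorem bdd_step {M : Type} [CommGroup M] (σ : M ≃* M) (n : ℕ) (hn : 0 < n)
    (hσ : ∀ a, (σ ^ n) a = a) (m : ℕ) (hm : 0 < m) (hexp : ∀ a : M, a ^ m = 1)
    (H : Subgroup M) (hH : (H : Set M).Infinite) (hHσ : ∀ a ∈ H, σ a ∈ H) :
    ∃ H' : Subgroup M, H' < H ∧ (H' : Set M).Infinite ∧ ∀ a ∈ H', σ a ∈ H' := by
  classical
  obtain ⟨a, haH, ha1⟩ : ∃ a ∈ H, a ≠ 1 := by
    by_contra hcon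
    push Not at hcon
    exact hH ((Set.finite_singleton (1:M)).subset fun x hx => hcon x hx)
  obtain ⟨c, hc⟩ := CharacterModule.exists_character_apply_ne_zero_of_ne_zero
    (A := Additive M) (a := Additive.ofMul a) (fun h => ha1 (Additive.ofMul.injective h))
  have hcm : ∀ x y : M, c (Additive.ofMul (x * y)) = c (Additive.ofMul x) + c (Additive.ofMul y) :=
    fun x y => map_add c _ _
  have hc1 : c (Additive.ofMul (1 : M)) = 0 := map_zero c
  have hcinv : ∀ x : M, c (Additive.ofMul x⁻¹) = - c (Additive.ofMul x) := fun x => map_neg c _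
  let K : Subgroup M :=
    { carrier := {x | ∀ i : ℕ, c (Additive.ofMul ((σ ^ i) x)) = 0}
      one_mem' := fun i => by rw [map_one]; exact hc1
      mul_mem' := by
        intro x y hx hy i
        rw [map_mul, hcm, hx i, hy i, add_zero]
      inv_mem' := by
        intro x hx i
        rw [map_inv, hcinv, hx i, neg_zero] }
  have hK : ∀ x, x ∈ K ↔ ∀ i : ℕ, c (Additive.ofMul ((σ ^ i) x)) = 0 := fun x => Iff.rfl
  refine ⟨H ⊓ K, ?_, ?_, ?_⟩
  · refine lt_of_le_of_ne inf_le_left fun h => ?_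
    have h1 : a ∈ H ⊓ K := by rw [h]; exact haH
    exact hc (h1.2 0)
  · intro hfin
    apply hH
    refine Set.Finite.of_finite_fibers
      (fun x : M => fun i : Fin n => c (Additive.ofMul ((σ ^ (i : ℕ)) x))) (s := (H : Set M)) ?_ ?_
    · have h1 : ({u : AddCircle (1:ℚ) | m • u = 0}).Finite := AddCircle.finite_torsion (1:ℚ) hm
      refine (Set.Finite.pi' (fun _ : Fin n => h1)).subset ?_
      rintro _ ⟨x, _, rfl⟩ i
      show m • c (Additive.ofMul ((σ ^ (i : ℕ)) x)) = 0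
      rw [← map_nsmul, ← ofMul_pow, hexp]
      exact hc1
    · rintro _ ⟨x, hx, rfl⟩
      have h2 : ((fun z : M => z * x) '' ((H ⊓ K : Subgroup M) : Set M)).Finite := hfin.image _
      refine h2.subset ?_
      rintro y ⟨hy, hyx⟩
      refine ⟨y * x⁻¹, ⟨H.mul_mem hy (H.inv_mem hx), ?_⟩, by simp⟩
      have h3 : ∀ i : Fin n, c (Additive.ofMul ((σ ^ (i : ℕ)) y)) =
          c (Additive.ofMul ((σ ^ (i : ℕ)) x)) := fun i => congrFun hyx i
      show y * x⁻¹ ∈ K
      rw [hK]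
      intro i
      have h4 : ∀ z, (σ ^ i) z = (σ ^ (i % n)) z := by
        intro z
        have h5 : σ ^ n = 1 := MulEquiv.ext hσ
        conv_lhs => rw [← Nat.mod_add_div i n, pow_add, pow_mul, h5, one_pow, mul_one]
      rw [h4, map_mul, map_inv, hcm, hcinv, h3 ⟨i % n, Nat.mod_lt _ hn⟩, add_neg_cancel]
  · rintro x ⟨hx1, hx2⟩
    refine ⟨hHσ x hx1, ?_⟩
    show σ x ∈ K
    rw [hK]
    intro i
    have := hx2 (i + 1)
    rw [pow_succ] at this
    exact this

theorem bdd_finite {M : Type} [CommGroup M] (σ : M ≃* M) (n : ℕ) (hn : 0 < n)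
    (hσ : ∀ a, (σ ^ n) a = a) (m : ℕ) (hm : 0 < m) (hexp : ∀ a : M, a ^ m = 1)
    (hdcc : ¬ ∃ H : ℕ → Subgroup M, ∀ i, H (i + 1) < H i ∧ ∀ a ∈ H i, σ a ∈ H i) : Finite M := by
  classical
  by_contra hfin
  have hinf : Infinite M := not_finite_iff_infinite.1 hfin
  apply hdcc
  let P : Type := {H : Subgroup M // (H : Set M).Infinite ∧ ∀ a ∈ H, σ a ∈ H}
  have step : ∀ H : P, ∃ H' : P, H'.1 < H.1 := by
    rintro ⟨H, h1, h2⟩
    obtain ⟨H', h3, h4, h5⟩ := bdd_step σ n hn hσ m hm hexp H h1 h2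
    exact ⟨⟨H', h4, h5⟩, h3⟩
  choose f hf using step
  have htop : ((⊤ : Subgroup M) : Set M).Infinite := by
    rw [Subgroup.coe_top]; exact Set.infinite_univ
  let s : ℕ → P := fun k => Nat.rec (⟨⊤, htop, fun a _ => Subgroup.mem_top _⟩ : P) (fun _ H => f H) k
  exact ⟨fun k => (s k).1, fun i => ⟨hf (s i), (s i).2.2⟩⟩

end PMin
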