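import Pool.Agent.H631.PM.Defs
import Pool.Agent.H631.PM.Z01

namespace PMin

theorem Z02_stab {M : Type} [CommGroup M] (σ : M ≃* M) (R : Subgroup M)
    (hdcc : ¬ ∃ H : ℕ → Subgroup M, ∀ i, H i ≤ R ∧ H (i + 1) < H i ∧ ∀ a ∈ H i, σ a ∈ H i)
    (K : ℕ → Subgroup M) (hK : Antitone K) (hKR : ∀ i, K i ≤ R)
    (hKσ : ∀ i, ∀ a ∈ K i, σ a ∈ K i) :
    ∃ j0, ∀ j, j0 ≤ j → K j = K j0 := by
  by_contra hcon
  push Not at hcon
  choose f hf1 hf2 using hcon
  apply hdcc
  let s : ℕ → ℕ := fun i => Nat.rec 0 (fun _ x => f x) i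
  refine ⟨fun i => K (s i), fun i => ⟨hKR _, ?_, hKσ _⟩⟩
  have h1 : s (i + 1) = f (s i) := rfl
  show K (s (i + 1)) < K (s i)
  rw [h1]
  exact lt_of_le_of_ne (hK (hf1 _)) (hf2 _)

theorem Z02_pow {M : Type} [Group M] (σ : M ≃* M) (k : ℕ) (a : M) :
    (σ ^ (k + 1)) a = σ ((σ ^ k) a) := by
  rw [pow_succ']; rfl

theorem Z02_mem {M : Type} [Group M] (σ : M ≃* M) (R : Subgroup M) (hR : ∀ a ∈ R, σ a ∈ R)
    (k : ℕ) (a : M) (ha : a ∈ R) : (σ ^ k) a ∈ R := by
  induction k with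
  | zero => simpa using ha
  | succ k ih => rw [Z02_pow]; exact hR _ ih

theorem Z02_back {M : Type} [Group M] (σ : M ≃* M) (n : ℕ) (hn : 0 < n)
    (hσ : ∀ a, (σ ^ n) a = a) (R : Subgroup M) (hR : ∀ a ∈ R, σ a ∈ R) (a : M)
    (h : σ a ∈ R) : a ∈ R := by
  obtain ⟨m, rfl⟩ : ∃ m, n = m + 1 := ⟨n - 1, by omega⟩
  have h1 := Z02_mem σ R hR m (σ a) h
  have h2 : (σ ^ m) (σ a) = (σ ^ (m + 1)) a := by rw [pow_succ]; rfl
  rw [h2, hσ] at h1
  exact h1

theorem Z02_restr {M : Type} [CommGroup M] (σ : M ≃* M) (n : ℕ) (hn : 0 < n)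
    (hσ : ∀ a, (σ ^ n) a = a) (R : Subgroup M) (hR : ∀ a ∈ R, σ a ∈ R) :
    ∃ τ : R ≃* R, ∀ a : R, ((τ a : R) : M) = σ a := by
  let φ : R →* R := (σ.toMonoidHom.comp R.subtype).codRestrict R (fun a => hR a a.2)
  have hφ : ∀ a : R, ((φ a : R) : M) = σ a := fun a => rfl
  have hbij : Function.Bijective φ := by
    constructor
    · intro a b hab
      apply Subtype.ext
      apply σ.injective
      rw [← hφ, ← hφ, hab]
    · intro b
      have hb : σ.symm (b : M) ∈ R :=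
        Z02_back σ n hn hσ R hR _ (by rw [MulEquiv.apply_symm_apply]; exact b.2)
      refine ⟨⟨σ.symm b, hb⟩, Subtype.ext ?_⟩
      rw [hφ]
      exact σ.apply_symm_apply _
  exact ⟨MulEquiv.ofBijective φ hbij, fun a => rfl⟩

theorem Z02_quot {Q : Type} [CommGroup Q] (τ : Q ≃* Q) (n : ℕ) (hn : 0 < n)
    (hτ : ∀ a, (τ ^ n) a = a) (D : Subgroup Q) (hD : ∀ a ∈ D, τ a ∈ D) :
    ∃ ρ : Q ⧸ D ≃* Q ⧸ D, ∀ a : Q,
      ρ (QuotientGroup.mk a : Q ⧸ D) = (QuotientGroup.mk (τ a) : Q ⧸ D) := by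
  let φ : Q ⧸ D →* Q ⧸ D := QuotientGroup.map D D τ.toMonoidHom (fun a ha => hD a ha)
  have hφ : ∀ a : Q, φ (QuotientGroup.mk a : Q ⧸ D) = (QuotientGroup.mk (τ a) : Q ⧸ D) :=
    fun a => rfl
  have hbij : Function.Bijective φ := by
    constructor
    · rw [injective_iff_map_eq_one]
      intro x
      refine QuotientGroup.induction_on x ?_
      intro a ha
      rw [hφ, QuotientGroup.eq_one_iff] at ha
      rw [QuotientGroup.eq_one_iff]
      exact Z02_back τ n hn hτ D hD a ha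
    · intro x
      refine QuotientGroup.induction_on x ?_
      intro a
      exact ⟨(QuotientGroup.mk (τ.symm a) : Q ⧸ D), by rw [hφ, MulEquiv.apply_symm_apply]⟩
  exact ⟨MulEquiv.ofBijective φ hbij, fun a => rfl⟩

theorem Z02_fin {M : Type} [CommGroup M] (σ : M ≃* M) (n : ℕ) (hn : 0 < n)
    (hσ : ∀ a, (σ ^ n) a = a) (R D : Subgroup M)
    (hR : ∀ a ∈ R, σ a ∈ R) (hD : ∀ a ∈ D, σ a ∈ D) (m : ℕ) (hm : 0 < m)
    (hexp : ∀ a ∈ R, a ^ m ∈ D)
    (hdcc : ¬ ∃ H : ℕ → Subgroup M, ∀ i, H i ≤ R ∧ H (i + 1) < H i ∧ ∀ a ∈ H i, σ a ∈ H i) :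
    Finite (R ⧸ D.subgroupOf R) := by
  obtain ⟨τ, hτ⟩ := Z02_restr σ n hn hσ R hR
  have hτn : ∀ a, (τ ^ n) a = a := by
    intro a
    apply Subtype.ext
    have h1 : ∀ k, (((τ ^ k) a : R) : M) = (σ ^ k) a := by
      intro k
      induction k with
      | zero => rfl
      | succ k ih => rw [Z02_pow, Z02_pow, hτ, ih]
    rw [h1, hσ]
  have hD' : ∀ a ∈ D.subgroupOf R, τ a ∈ D.subgroupOf R := by
    intro a ha
    rw [Subgroup.mem_subgroupOf] at ha ⊢
    rw [hτ]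
    exact hD _ ha
  obtain ⟨ρ, hρ⟩ := Z02_quot τ n hn hτn (D.subgroupOf R) hD'
  have hρn : ∀ x, (ρ ^ n) x = x := by
    intro x
    refine QuotientGroup.induction_on x ?_
    intro a
    have h1 : ∀ k, (ρ ^ k) (QuotientGroup.mk a : R ⧸ D.subgroupOf R) =
        (QuotientGroup.mk ((τ ^ k) a) : R ⧸ D.subgroupOf R) := by
      intro k
      induction k with
      | zero => rfl
      | succ k ih => rw [Z02_pow, Z02_pow, ih, hρ]
    rw [h1, hτn]
  apply bdd_finite ρ n hn hρn m hm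
  · intro x
    refine QuotientGroup.induction_on x ?_
    intro a
    rw [← QuotientGroup.mk_pow, QuotientGroup.eq_one_iff, Subgroup.mem_subgroupOf]
    exact hexp _ a.2
  · rintro ⟨H, hH⟩
    apply hdcc
    refine ⟨fun i => ((H i).comap (QuotientGroup.mk' (D.subgroupOf R))).map R.subtype,
      fun i => ⟨Subgroup.map_subtype_le _, ?_, ?_⟩⟩
    · obtain ⟨hle, x, hx1, hx2⟩ := SetLike.lt_iff_le_and_exists.1 (hH i).1
      refine SetLike.lt_iff_le_and_exists.2 ⟨Subgroup.map_mono (Subgroup.comap_mono hle), ?_⟩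
      obtain ⟨a, rfl⟩ := QuotientGroup.mk'_surjective (D.subgroupOf R) x
      refine ⟨(a : M), ⟨a, hx1, rfl⟩, ?_⟩
      rintro ⟨b, hb, hba⟩
      have hab : b = a := Subtype.ext hba
      rw [hab] at hb
      exact hx2 hb
    · rintro _ ⟨r, hr, rfl⟩
      refine ⟨τ r, ?_, hτ r⟩
      have h2 := (hH i).2 _ hr
      have h3 : ρ (QuotientGroup.mk' (D.subgroupOf R) r) =
          QuotientGroup.mk' (D.subgroupOf R) (τ r) := hρ r
      rw [h3] at h2
      exact h2

/-! TARGET: prove the following -/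

theorem fd_of_dcc {M : Type} [CommGroup M] (htor : ∀ a : M, ∃ k : ℕ, 0 < k ∧ a ^ k = 1)
    (σ : M ≃* M) (n : ℕ) (hn : 0 < n) (hσ : ∀ a, (σ ^ n) a = a) (R : Subgroup M)
    (hR : ∀ a ∈ R, σ a ∈ R)
    (hdcc : ¬ ∃ H : ℕ → Subgroup M, ∀ i, H i ≤ R ∧ H (i + 1) < H i ∧ ∀ a ∈ H i, σ a ∈ H i) :
    FD R := by
  constructor
  · have hmemK : ∀ (j : ℕ) (x : M), x ∈ R.map (powMonoidHom (Nat.factorial j)) ↔
        ∃ a ∈ R, a ^ (Nat.factorial j) = x := by
      intro j x
      rw [Subgroup.mem_map]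
      rfl
    have hanti : Antitone (fun j : ℕ => R.map (powMonoidHom (Nat.factorial j))) := by
      intro j j' hjj x hx
      obtain ⟨a, ha, rfl⟩ := (hmemK j' x).1 hx
      obtain ⟨c, hc⟩ := Nat.factorial_dvd_factorial hjj
      exact (hmemK j _).2 ⟨a ^ c, R.pow_mem ha c, by rw [hc, ← pow_mul, mul_comm]⟩
    obtain ⟨j0, hj0⟩ := Z02_stab σ R hdcc (fun j : ℕ => R.map (powMonoidHom (Nat.factorial j)))
      hanti (by
        intro j x hx
        obtain ⟨a, ha, rfl⟩ := (hmemK j x).1 hx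
        exact R.pow_mem ha _) (by
        intro j x hx
        obtain ⟨a, ha, rfl⟩ := (hmemK j x).1 hx
        exact (hmemK j _).2 ⟨σ a, hR a ha, (map_pow σ a _).symm⟩)
    refine ⟨R.map (powMonoidHom (Nat.factorial j0)), ?_, ?_, ?_⟩
    · intro x hx
      obtain ⟨a, ha, rfl⟩ := (hmemK j0 x).1 hx
      exact R.pow_mem ha _
    · have hfin := Z02_fin σ n hn hσ R (R.map (powMonoidHom (Nat.factorial j0))) hR (by
        intro x hx
        obtain ⟨a, ha, rfl⟩ := (hmemK j0 x).1 hx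
        exact (hmemK j0 _).2 ⟨σ a, hR a ha, (map_pow σ a _).symm⟩) (Nat.factorial j0)
        (Nat.factorial_pos _) (fun a ha => (hmemK j0 _).2 ⟨a, ha, rfl⟩) hdcc
      rw [Subgroup.relIndex, Subgroup.index]
      exact Nat.card_pos.ne'
    · intro a ha m hm
      have hJ : j0 ≤ Nat.factorial j0 * m :=
        (Nat.self_le_factorial j0).trans (Nat.le_mul_of_pos_right _ hm)
      have h1 := hj0 _ hJ
      rw [← h1] at ha
      obtain ⟨r, hr, hra⟩ := (hmemK _ a).1 ha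
      obtain ⟨c, hc⟩ : Nat.factorial j0 * m ∣ Nat.factorial (Nat.factorial j0 * m) :=
        Nat.dvd_factorial (Nat.mul_pos (Nat.factorial_pos _) hm) le_rfl
      refine ⟨(r ^ c) ^ (Nat.factorial j0), (hmemK j0 _).2 ⟨r ^ c, R.pow_mem hr c, rfl⟩, ?_⟩
      rw [← hra, hc, ← pow_mul, ← pow_mul]
      congr 1
      ring
  · have hq : ∀ q : ℕ, q.Prime → {a : M | a ∈ R ∧ a ^ q = 1}.Finite := by
      intro q hq
      have hmem : ∀ a : M, a ∈ R ⊓ (powMonoidHom q : M →* M).ker ↔ a ∈ R ∧ a ^ q = 1 := by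
        intro a
        rw [Subgroup.mem_inf, MonoidHom.mem_ker]
        rfl
      have hfin := Z02_fin σ n hn hσ (R ⊓ (powMonoidHom q : M →* M).ker) ⊥ (by
        intro a ha
        rw [hmem] at ha ⊢
        exact ⟨hR a ha.1, by rw [← map_pow, ha.2, map_one]⟩) (by
        intro a ha
        rw [Subgroup.mem_bot] at ha ⊢
        rw [ha, map_one]) q hq.pos (by
        intro a ha
        rw [Subgroup.mem_bot]
        exact ((hmem a).1 ha).2) (by
        rintro ⟨H, hH⟩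
        exact hdcc ⟨H, fun i => ⟨(hH i).1.trans inf_le_left, (hH i).2.1, (hH i).2.2⟩⟩)
      have hfin2 : Finite (R ⊓ (powMonoidHom q : M →* M).ker : Subgroup M) := by
        have hbot : ((⊥ : Subgroup M).subgroupOf (R ⊓ (powMonoidHom q : M →* M).ker)) = ⊥ :=
          Subgroup.bot_subgroupOf _
        rw [hbot] at hfin
        exact Finite.of_equiv _ (QuotientGroup.quotientBot
          (G := (R ⊓ (powMonoidHom q : M →* M).ker : Subgroup M))).toEquiv
      have h3 : ((R ⊓ (powMonoidHom q : M →* M).ker : Subgroup M) : Set M).Finite :=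
        Set.toFinite _
      refine h3.subset ?_
      intro a ha
      exact (hmem a).2 ha
    have hcl : ∀ j : ℕ, ∃ T : Subgroup M, ∀ a : M, a ∈ T ↔
        a ∈ R ∧ ∃ k : ℕ, k.Coprime (Nat.factorial j) ∧ a ^ k = 1 := by
      intro j
      refine ⟨{ carrier := {a | a ∈ R ∧ ∃ k : ℕ, k.Coprime (Nat.factorial j) ∧ a ^ k = 1}
                mul_mem' := ?_
                one_mem' := ⟨R.one_mem, 1, Nat.coprime_one_left _, one_pow _⟩
                inv_mem' := ?_ }, fun a => Iff.rfl⟩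
      · rintro a b ⟨ha, k, hk, hak⟩ ⟨hb, l, hl, hbl⟩
        refine ⟨R.mul_mem ha hb, k * l, Nat.Coprime.mul_left hk hl, ?_⟩
        rw [mul_pow, pow_mul, hak, one_pow, mul_comm k l, pow_mul, hbl, one_pow, one_mul]
      · rintro a ⟨ha, k, hk, hak⟩
        exact ⟨R.inv_mem ha, k, hk, by rw [inv_pow, hak, inv_one]⟩
    choose T hT using hcl
    obtain ⟨j0, hj0⟩ := Z02_stab σ R hdcc T (by
        intro j j' hjj a ha
        rw [hT] at ha ⊢
        obtain ⟨h1, k, hk, hak⟩ := ha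
        exact ⟨h1, k, Nat.Coprime.coprime_dvd_right (Nat.factorial_dvd_factorial hjj) hk, hak⟩) (by
        intro j a ha
        exact ((hT j a).1 ha).1) (by
        intro j a ha
        rw [hT] at ha ⊢
        obtain ⟨h1, k, hk, hak⟩ := ha
        exact ⟨hR a h1, k, hk, by rw [← map_pow, hak, map_one]⟩)
    have hfinal : ((⋃ q ∈ (Finset.range (j0 + 1)).filter Nat.Prime, {a : M | a ∈ R ∧ a ^ q = 1}) ∪
        {1} : Set M).Finite := by
      apply Set.Finite.union _ (Set.finite_singleton _)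
      apply Set.Finite.biUnion (Finset.finite_toSet _)
      intro q hqq
      rw [Finset.mem_coe, Finset.mem_filter] at hqq
      exact hq q hqq.2
    refine hfinal.subset ?_
    rintro a ⟨haR, q, hqp, haq⟩
    by_cases ha1 : a = 1
    · exact Or.inr ha1
    · left
      rw [Set.mem_iUnion₂]
      refine ⟨q, ?_, haR, haq⟩
      rw [Finset.mem_filter, Finset.mem_range]
      refine ⟨?_, hqp⟩
      by_contra hlt
      have hjq : j0 < q := by omega
      have hcop : q.Coprime (Nat.factorial j0) := by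
        rw [Nat.Prime.coprime_iff_not_dvd hqp, hqp.dvd_factorial]
        omega
      have h1 : a ∈ T j0 := (hT j0 a).2 ⟨haR, q, hcop, haq⟩
      rw [← hj0 q hjq.le, hT] at h1
      obtain ⟨-, k, hk, hak⟩ := h1
      have hkq : k.Coprime q :=
        Nat.Coprime.coprime_dvd_right (Nat.dvd_factorial hqp.pos le_rfl) hk
      apply ha1
      have h2 : orderOf a ∣ k := orderOf_dvd_of_pow_eq_one hak
      have h3 : orderOf a ∣ q := orderOf_dvd_of_pow_eq_one haq
      have h4 : orderOf a ∣ 1 := by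
        rw [← hkq]
        exact Nat.dvd_gcd h2 h3
      exact orderOf_eq_one_iff.1 (Nat.dvd_one.1 h4)

end PMin

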