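import Pool.Agent.H631.PM.Defs

namespace PMin

/-! TARGET: prove the following -/

theorem quo_le {Z : Type} [CommGroup Z] (htor : ∀ a : Z, ∃ k : ℕ, 0 < k ∧ a ^ k = 1) (q : ℕ)
    (hq : q.Prime) (hfin : {a : Z | a ^ q = 1}.Finite) :
    (powMonoidHom q : Z →* Z).range.index ≠ 0 := by
  classical
  intro h0
  have hinf : Infinite (Z ⧸ (powMonoidHom q : Z →* Z).range) := by
    rw [← not_finite_iff_infinite]
    intro hf
    exact Subgroup.index_ne_zero_of_finite h0
  obtain ⟨t, ht⟩ := Infinite.exists_subset_card_eq (Z ⧸ (powMonoidHom q : Z →* Z).range)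
    (hfin.toFinset.card + 1)
  set S : Finset Z := t.image Quotient.out with hS
  have hFG : Group.FG (Subgroup.closure (S : Set Z)) := Group.closure_finset_fg S
  have htF : ∀ g : Subgroup.closure (S : Set Z), IsOfFinOrder g := by
    intro g
    rw [isOfFinOrder_iff_pow_eq_one]
    obtain ⟨k, hk, hgk⟩ := htor (g : Z)
    refine ⟨k, hk, ?_⟩
    apply Subtype.ext
    rw [Subgroup.coe_pow, hgk, Subgroup.coe_one]
  have hFin : Finite (Subgroup.closure (S : Set Z)) := CommGroup.finite_of_fg_isMulTorsion _ htF
  set f : Subgroup.closure (S : Set Z) →* Subgroup.closure (S : Set Z) := powMonoidHom q with hf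
  have hidx : f.range.index = Nat.card f.ker := by
    have h1 := Subgroup.card_mul_index f.ker
    have h2 := Subgroup.card_mul_index f.range
    rw [Subgroup.index_ker] at h1
    have h3 : 0 < Nat.card f.range := Nat.card_pos
    have h4 : Nat.card f.range * f.range.index = Nat.card f.range * Nat.card f.ker := by
      rw [h2, ← h1, mul_comm]
    exact Nat.eq_of_mul_eq_mul_left h3 h4
  have hker : Nat.card f.ker ≤ hfin.toFinset.card := by
    have hfin' : Finite {a : Z | a ^ q = 1} := hfin.to_subtype
    have h1 : Nat.card f.ker ≤ Nat.card {a : Z | a ^ q = 1} := by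
      refine Nat.card_le_card_of_injective
        (fun x : f.ker => (⟨((x : Subgroup.closure (S : Set Z)) : Z), ?_⟩ :
          {a : Z | a ^ q = 1})) ?_
      · have h2 := MonoidHom.mem_ker.mp x.2
        have h3 := congrArg Subtype.val h2
        simpa [hf] using h3
      · intro x y hxy
        have h2 : ((x : Subgroup.closure (S : Set Z)) : Z) =
            ((y : Subgroup.closure (S : Set Z)) : Z) := by
          have h3 := Subtype.ext_iff.mp hxy
          exact h3
        exact Subtype.ext (Subtype.ext h2)
    rw [Nat.card_coe_set_eq, Set.ncard_eq_toFinset_card _ hfin] at h1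
    exact h1
  have hmem : ∀ c ∈ t, Quotient.out c ∈ Subgroup.closure (S : Set Z) := by
    intro c hc
    apply Subgroup.subset_closure
    rw [hS, Finset.coe_image]
    exact ⟨c, hc, rfl⟩
  have hinj : Function.Injective (fun c : t =>
      (QuotientGroup.mk (⟨Quotient.out c.1, hmem c.1 c.2⟩ : Subgroup.closure (S : Set Z)) :
        Subgroup.closure (S : Set Z) ⧸ f.range)) := by
    intro c d hcd
    have h1 := QuotientGroup.eq.mp hcd
    obtain ⟨w, hw⟩ := h1
    have h2 : (w : Z) ^ q = (Quotient.out c.1)⁻¹ * Quotient.out d.1 := by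
      have := congrArg Subtype.val hw
      simpa [hf] using this
    apply Subtype.ext
    rw [← QuotientGroup.out_eq' c.1, ← QuotientGroup.out_eq' d.1]
    rw [QuotientGroup.eq]
    exact ⟨(w : Z), h2⟩
  have hle : t.card ≤ f.range.index := by
    have h1 := Nat.card_le_card_of_injective _ hinj
    rw [Nat.card_eq_fintype_card, Fintype.card_coe] at h1
    exact h1
  rw [ht, hidx] at hle
  omega

end PMin
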