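import Pool.Agent.H631.PM.Defs
import Pool.Agent.H631.PM.Z03

namespace PMin

/-! TARGET: prove the following -/

theorem fd_sup_q {M : Type} [CommGroup M] (htor : ∀ a : M, ∃ k : ℕ, 0 < k ∧ a ^ k = 1)
    (R₁ R₂ : Subgroup M) (q : ℕ) (hq : q.Prime) (hf1 : {a : M | a ∈ R₁ ∧ a ^ q = 1}.Finite)
    (hf2 : {a : M | a ∈ R₂ ∧ a ^ q = 1}.Finite) : {a : M | a ∈ R₁ ⊔ R₂ ∧ a ^ q = 1}.Finite := by
  classical
  have hidx := quo_le (Z := ↥(R₁ ⊓ R₂)) (by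
    intro a
    obtain ⟨k, hk, hak⟩ := htor (a : M)
    refine ⟨k, hk, ?_⟩
    apply Subtype.ext
    rw [Subgroup.coe_pow, hak]; rfl) q hq (by
    refine (hf1.preimage (Subtype.val_injective.injOn (s := Set.univ) |>.mono (Set.subset_univ _))).subset ?_
    intro a ha
    have ha' : a ^ q = 1 := ha
    refine ⟨a.2.1, ?_⟩
    have h0 := congrArg Subtype.val ha'
    rw [Subgroup.coe_pow] at h0
    exact h0)
  have hfi : (powMonoidHom q : ↥(R₁ ⊓ R₂) →* ↥(R₁ ⊓ R₂)).range.FiniteIndex := ⟨hidx⟩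
  have hfq : Finite (↥(R₁ ⊓ R₂) ⧸ (powMonoidHom q : ↥(R₁ ⊓ R₂) →* ↥(R₁ ⊓ R₂)).range) :=
    inferInstance
  have hex : ∀ a : M, a ∈ R₁ ⊔ R₂ → ∃ x y : M, x ∈ R₁ ∧ y ∈ R₂ ∧ x * y = a := by
    intro a ha
    obtain ⟨x, hx, y, hy, hxy⟩ := Subgroup.mem_sup.1 ha
    exact ⟨x, y, hx, hy, hxy⟩
  choose! x y hx hy hxy using hex
  have hzq : ∀ a : M, a ∈ R₁ ⊔ R₂ → a ^ q = 1 → (y a) ^ q = ((x a) ^ q)⁻¹ := by
    intro a ha haq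
    rw [← hxy a ha, mul_pow] at haq
    exact (inv_eq_of_mul_eq_one_right haq).symm
  have hzm : ∀ a : M, a ∈ R₁ ⊔ R₂ → a ^ q = 1 → (x a) ^ q ∈ R₁ ⊓ R₂ := by
    intro a ha haq
    refine ⟨R₁.pow_mem (hx a ha) q, ?_⟩
    have h0 := R₂.inv_mem (R₂.pow_mem (hy a ha) q)
    rw [hzq a ha haq, inv_inv] at h0
    exact h0
  let f : M → (↥(R₁ ⊓ R₂) ⧸ (powMonoidHom q : ↥(R₁ ⊓ R₂) →* ↥(R₁ ⊓ R₂)).range) := fun a =>
    if h : (x a) ^ q ∈ R₁ ⊓ R₂ then (QuotientGroup.mk ⟨(x a) ^ q, h⟩) else 1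
  refine Set.Finite.of_finite_fibers f (Set.toFinite _) ?_
  rintro c ⟨a0, ⟨ha0, ha0q⟩, rfl⟩
  refine ((hf1.prod hf2).image (fun p : M × M => a0 * p.1 * p.2)).subset ?_
  rintro a ⟨⟨ha, haq⟩, hac⟩
  have hac' : f a = f a0 := hac
  have h1 : f a = QuotientGroup.mk ⟨(x a) ^ q, hzm a ha haq⟩ := dif_pos (hzm a ha haq)
  have h2 : f a0 = QuotientGroup.mk ⟨(x a0) ^ q, hzm a0 ha0 ha0q⟩ := dif_pos (hzm a0 ha0 ha0q)
  rw [h1, h2] at hac'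
  have h3 := QuotientGroup.eq.1 hac'.symm
  obtain ⟨z, hz⟩ := h3
  have hz' : (z : M) ^ q = ((x a0) ^ q)⁻¹ * (x a) ^ q := by
    have h0 := congrArg Subtype.val hz
    exact h0
  have e1 := hzq a ha haq
  have e0 := hzq a0 ha0 ha0q
  refine ⟨((x a0)⁻¹ * (z : M)⁻¹ * x a, (y a0)⁻¹ * z * y a), ⟨⟨?_, ?_⟩, ⟨?_, ?_⟩⟩, ?_⟩
  · exact R₁.mul_mem (R₁.mul_mem (R₁.inv_mem (hx a0 ha0)) (R₁.inv_mem z.2.1)) (hx a ha)
  · show ((x a0)⁻¹ * (z : M)⁻¹ * x a) ^ q = 1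
    rw [mul_pow, mul_pow, inv_pow, inv_pow, hz']
    generalize (x a0) ^ q = A
    generalize (x a) ^ q = B
    rw [mul_inv, inv_inv]
    have h7 : A⁻¹ * (A * B⁻¹) * B = (A⁻¹ * A) * (B⁻¹ * B) := by ac_rfl
    rw [h7]
    simp
  · exact R₂.mul_mem (R₂.mul_mem (R₂.inv_mem (hy a0 ha0)) z.2.2) (hy a ha)
  · show ((y a0)⁻¹ * (z : M) * y a) ^ q = 1
    rw [mul_pow, mul_pow, inv_pow, e0, e1, hz']
    group
  · show a0 * ((x a0)⁻¹ * (z : M)⁻¹ * x a) * ((y a0)⁻¹ * z * y a) = a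
    have h5 : a0 * ((x a0)⁻¹ * (z : M)⁻¹ * x a) * ((y a0)⁻¹ * z * y a) =
        x a0 * y a0 * ((x a0)⁻¹ * (z : M)⁻¹ * x a) * ((y a0)⁻¹ * z * y a) := by
      rw [hxy a0 ha0]
    have h6 : x a0 * y a0 * ((x a0)⁻¹ * (z : M)⁻¹ * x a) * ((y a0)⁻¹ * z * y a) =
        (x a0 * (x a0)⁻¹) * (y a0 * (y a0)⁻¹) * ((z : M)⁻¹ * z) * (x a * y a) := by
      ac_rfl
    rw [h5, h6, mul_inv_cancel, mul_inv_cancel, inv_mul_cancel, hxy a ha]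
    simp

theorem fd_sup_prime {M : Type} [CommGroup M] (htor : ∀ a : M, ∃ k : ℕ, 0 < k ∧ a ^ k = 1)
    (R : Subgroup M) (q : ℕ) (hq : q.Prime) (r : M) (hr : r ∈ R)
    (hno : ∀ a ∈ R, a ^ q = 1 → a = 1) : ∃ k : ℕ, k.Coprime q ∧ r ^ k = 1 := by
  obtain ⟨k, hk, hrk⟩ := htor r
  have hfo : 0 < orderOf r := orderOf_pos_iff.2 (isOfFinOrder_iff_pow_eq_one.2 ⟨k, hk, hrk⟩)
  refine ⟨orderOf r, ?_, pow_orderOf_eq_one r⟩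
  rw [Nat.coprime_comm, Nat.Prime.coprime_iff_not_dvd hq]
  rintro ⟨m, hm⟩
  have h1 : (r ^ m) ^ q = 1 := by rw [← pow_mul, mul_comm m q, ← hm, pow_orderOf_eq_one]
  have h2 := hno (r ^ m) (R.pow_mem hr m) h1
  have h3 := orderOf_dvd_of_pow_eq_one h2
  have hm0 : 0 < m := by
    rcases Nat.eq_zero_or_pos m with h0 | h0
    · rw [h0, mul_zero] at hm; omega
    · exact h0
  have h4 := Nat.le_of_dvd hm0 h3
  rw [hm] at h4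
  have h5 := hq.two_le
  nlinarith

theorem fd_sup {M : Type} [CommGroup M] (htor : ∀ a : M, ∃ k : ℕ, 0 < k ∧ a ^ k = 1)
    (R₁ R₂ : Subgroup M) (h₁ : FD R₁) (h₂ : FD R₂) : FD (R₁ ⊔ R₂) := by
  classical
  obtain ⟨⟨D1, hD1, hI1, hv1⟩, hF1⟩ := h₁
  obtain ⟨⟨D2, hD2, hI2, hv2⟩, hF2⟩ := h₂
  refine ⟨⟨D1 ⊔ D2, sup_le_sup hD1 hD2, ?_, ?_⟩, ?_⟩
  · have a1 : (D1 ⊔ D2).relIndex R₁ ≠ 0 := fun h0 => hI1 (by
      have := Subgroup.relIndex_dvd_of_le_left (L := R₁) (le_sup_left : D1 ≤ D1 ⊔ D2)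
      rw [h0] at this
      exact Nat.eq_zero_of_zero_dvd this)
    have a2 : ((D1 ⊔ D2) ⊔ R₁).relIndex R₂ ≠ 0 := fun h0 => hI2 (by
      have := Subgroup.relIndex_dvd_of_le_left (L := R₂)
        ((le_sup_right : D2 ≤ D1 ⊔ D2).trans (le_sup_left : D1 ⊔ D2 ≤ (D1 ⊔ D2) ⊔ R₁))
      rw [h0] at this
      exact Nat.eq_zero_of_zero_dvd this)
    have b1 : (D1 ⊔ D2).relIndex ((D1 ⊔ D2) ⊔ R₁) ≠ 0 := by
      rw [sup_comm (D1 ⊔ D2) R₁, Subgroup.relIndex_sup_right]; exact a1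
    have b2 : ((D1 ⊔ D2) ⊔ R₁).relIndex (((D1 ⊔ D2) ⊔ R₁) ⊔ R₂) ≠ 0 := by
      rw [sup_comm ((D1 ⊔ D2) ⊔ R₁) R₂, Subgroup.relIndex_sup_right]; exact a2
    have e : ((D1 ⊔ D2) ⊔ R₁) ⊔ R₂ = R₁ ⊔ R₂ := by
      apply le_antisymm
      · exact sup_le (sup_le (sup_le_sup hD1 hD2) le_sup_left) le_sup_right
      · exact sup_le (le_sup_right.trans le_sup_left) le_sup_right
    rw [e] at b2
    exact Subgroup.relIndex_ne_zero_trans b1 b2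
  · intro a ha m hm
    obtain ⟨x, hx, y, hy, rfl⟩ := Subgroup.mem_sup.1 ha
    obtain ⟨b, hb, hbm⟩ := hv1 x hx m hm
    obtain ⟨c, hc, hcm⟩ := hv2 y hy m hm
    refine ⟨b * c, Subgroup.mul_mem_sup hb hc, ?_⟩
    rw [mul_pow, hbm, hcm]
  · have hQ : (orderOf '' ({a : M | a ∈ R₁ ∧ ∃ q : ℕ, q.Prime ∧ a ^ q = 1} ∪
        {a : M | a ∈ R₂ ∧ ∃ q : ℕ, q.Prime ∧ a ^ q = 1})).Finite := (hF1.union hF2).image _
    have hbig : (⋃ q ∈ (orderOf '' ({a : M | a ∈ R₁ ∧ ∃ q : ℕ, q.Prime ∧ a ^ q = 1} ∪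
        {a : M | a ∈ R₂ ∧ ∃ q : ℕ, q.Prime ∧ a ^ q = 1})),
        {a : M | a ∈ R₁ ⊔ R₂ ∧ q.Prime ∧ a ^ q = 1}).Finite := by
      refine hQ.biUnion ?_
      intro q _
      by_cases hq : q.Prime
      · refine (fd_sup_q htor R₁ R₂ q hq (hF1.subset ?_) (hF2.subset ?_)).subset ?_
        · rintro a ⟨h1, h2⟩; exact ⟨h1, q, hq, h2⟩
        · rintro a ⟨h1, h2⟩; exact ⟨h1, q, hq, h2⟩
        · rintro a ⟨h1, _, h2⟩; exact ⟨h1, h2⟩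
      · refine Set.finite_empty.subset ?_
        rintro a ⟨_, h2, _⟩; exact absurd h2 hq
    refine (hbig.union (Set.finite_singleton (1 : M))).subset ?_
    rintro a ⟨ha, q, hq, haq⟩
    by_cases ha1 : a = 1
    · right; exact ha1
    left
    by_cases hqQ : q ∈ (orderOf '' ({a : M | a ∈ R₁ ∧ ∃ q : ℕ, q.Prime ∧ a ^ q = 1} ∪
        {a : M | a ∈ R₂ ∧ ∃ q : ℕ, q.Prime ∧ a ^ q = 1}))
    · exact Set.mem_biUnion hqQ ⟨ha, hq, haq⟩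
    · exfalso
      have hqf : Fact q.Prime := ⟨hq⟩
      have hno1 : ∀ b ∈ R₁, b ^ q = 1 → b = 1 := by
        intro b hb hbq
        by_contra hb1
        exact hqQ ⟨b, Or.inl ⟨hb, q, hq, hbq⟩, orderOf_eq_prime_iff.2 ⟨hbq, hb1⟩⟩
      have hno2 : ∀ b ∈ R₂, b ^ q = 1 → b = 1 := by
        intro b hb hbq
        by_contra hb1
        exact hqQ ⟨b, Or.inr ⟨hb, q, hq, hbq⟩, orderOf_eq_prime_iff.2 ⟨hbq, hb1⟩⟩
      obtain ⟨x, hx, y, hy, rfl⟩ := Subgroup.mem_sup.1 ha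
      obtain ⟨k1, hk1, hx1⟩ := fd_sup_prime htor R₁ q hq x hx hno1
      obtain ⟨k2, hk2, hy2⟩ := fd_sup_prime htor R₂ q hq y hy hno2
      have h1 : (x * y) ^ (k1 * k2) = 1 := by
        rw [mul_pow, pow_mul, hx1, one_pow, mul_comm k1 k2, pow_mul, hy2, one_pow, one_mul]
      have h2 : orderOf (x * y) ∣ k1 * k2 := orderOf_dvd_of_pow_eq_one h1
      have h3 : orderOf (x * y) ∣ q := orderOf_dvd_of_pow_eq_one haq
      have h4 : (k1 * k2).Coprime q := Nat.Coprime.mul_left hk1 hk2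
      have h5 : orderOf (x * y) = 1 := Nat.eq_one_of_dvd_coprimes h4 h2 h3
      exact ha1 (orderOf_eq_one_iff.1 h5)

end PMin
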