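import Pool.Agent.H631.PM.Defs
import Pool.Agent.H631.PM.Z04

namespace PMin

/-! TARGET: prove the following -/

theorem fd_bot_aux {M : Type} [CommGroup M] : FD (⊥ : Subgroup M) := by
  refine ⟨⟨⊥, le_refl _, ?_, ?_⟩, ?_⟩
  · simp [Subgroup.relIndex_self]
  · intro a ha m hm
    rw [Subgroup.mem_bot] at ha
    exact ⟨1, Subgroup.one_mem _, by rw [ha, one_pow]⟩
  · refine (Set.finite_singleton (1 : M)).subset ?_
    rintro a ⟨ha, _⟩
    exact Subgroup.mem_bot.mp ha

theorem fd_iSup {M : Type} [CommGroup M] (htor : ∀ a : M, ∃ k : ℕ, 0 < k ∧ a ^ k = 1)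
    (S : Set (Subgroup M)) (hS : S.Finite) (h : ∀ R ∈ S, FD R) : FD (sSup S) := by
  induction S, hS using Set.Finite.induction_on with
  | empty => rw [sSup_empty]; exact fd_bot_aux
  | insert _ _ ih =>
    rw [sSup_insert]
    exact fd_sup htor _ _ (h _ (Set.mem_insert _ _)) (ih (fun R hR => h R (Set.mem_insert_of_mem _ hR)))

end PMin
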