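import Pool.Agent.H631.PM.Defs

namespace PMin


theorem Z06_aux {A : Type} [CommGroup A] (σ : MulAut A) (P : ℕ) (hP : σ ^ P = 1) (L : Subgroup A)
    (hL : ∀ a ∈ L, σ a ∈ L) (m : A)
    (hm : m ∈ Subgroup.closure (Set.range fun n : A => n⁻¹ * σ n)) (h : m * (σ m)⁻¹ ∈ L) :
    m ^ P ∈ L := by
  have hnorm : ∀ r ∈ Subgroup.closure (Set.range fun n : A => n⁻¹ * σ n),
      ∏ j ∈ Finset.range P, (σ ^ j) r = 1 := by
    intro r hr
    induction hr using Subgroup.closure_induction with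
    | mem r hr =>
      obtain ⟨n, rfl⟩ := hr
      have h1 : ∀ j : ℕ, (σ ^ j) (n⁻¹ * σ n) = (σ ^ (j + 1)) n / (σ ^ j) n := by
        intro j
        rw [map_mul, map_inv, div_eq_mul_inv, mul_comm, pow_succ, MulAut.mul_apply]
      have h2 : ∏ j ∈ Finset.range P, (σ ^ j) (n⁻¹ * σ n) =
          ∏ j ∈ Finset.range P, ((σ ^ (j + 1)) n / (σ ^ j) n) :=
        Finset.prod_congr rfl (fun j _ => h1 j)
      have h3 := Finset.prod_range_div (fun j => (σ ^ j) n) P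
      show ∏ j ∈ Finset.range P, (σ ^ j) (n⁻¹ * σ n) = 1
      rw [h2, h3, hP]
      simp
    | one => simp
    | mul a b _ _ ha hb => simp only [map_mul, Finset.prod_mul_distrib, ha, hb, mul_one]
    | inv a _ ha => simp only [map_inv, Finset.prod_inv_distrib, ha, inv_one]
  have hLn : ∀ (j : ℕ), ∀ a ∈ L, (σ ^ j) a ∈ L := by
    intro j
    induction j with
    | zero => intro a ha; simpa using ha
    | succ j ih => intro a ha; rw [pow_succ', MulAut.mul_apply]; exact hL _ (ih a ha)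
  have h1 : ∀ j : ℕ, m * ((σ ^ j) m)⁻¹ ∈ L := by
    intro j
    induction j with
    | zero => simp [L.one_mem]
    | succ j ih =>
      have e : m * ((σ ^ (j + 1)) m)⁻¹ = (m * ((σ ^ j) m)⁻¹) * (σ ^ j) (m * (σ m)⁻¹) := by
        rw [map_mul, map_inv, pow_succ, MulAut.mul_apply]
        group
      rw [e]
      exact L.mul_mem ih (hLn j _ h)
  have h2 : m ^ P * (∏ j ∈ Finset.range P, (σ ^ j) m)⁻¹ ∈ L := by
    have e : m ^ P * (∏ j ∈ Finset.range P, (σ ^ j) m)⁻¹ =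
        ∏ j ∈ Finset.range P, (m * ((σ ^ j) m)⁻¹) := by
      rw [Finset.prod_mul_distrib, Finset.prod_const, Finset.card_range, Finset.prod_inv_distrib]
    rw [e]
    exact L.prod_mem (fun j _ => h1 j)
  rw [hnorm m hm, inv_one, mul_one] at h2
  exact h2


/-! TARGET: prove the following -/

theorem pmin_dcc {G : Type} [Group G] (p : ℕ) (hp : p.Prime) (hPM : PM p G) (N : Subgroup G)
    [N.Normal] (hcomm : ∀ a ∈ N, ∀ b ∈ N, a * b = b * a)
    (htor : ∀ a ∈ N, ∃ k : ℕ, 0 < k ∧ a ^ k = 1)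
    (hp' : ∀ a ∈ N, ∀ k : ℕ, a ^ (p ^ k) = 1 → a = 1) (x : G) (k : ℕ) (hx : x ^ (p ^ k) = 1) :
    ¬ ∃ H : ℕ → Subgroup N, ∀ i, H i ≤ Rx N x ∧ H (i + 1) < H i ∧
      ∀ a ∈ H i, MulAut.conjNormal x a ∈ H i := by
  rintro ⟨H, hH⟩
  have hR : ∀ i, H i ≤ Rx N x := fun i => (hH i).1
  have hlt : ∀ i, H (i+1) < H i := fun i => (hH i).2.1
  have hσ : ∀ i, ∀ a ∈ H i, MulAut.conjNormal x a ∈ H i := fun i => (hH i).2.2
  have hσn : ∀ i (n : ℕ), ∀ a ∈ H i, ((MulAut.conjNormal x : MulAut N) ^ n) a ∈ H i := by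
    intro i n
    induction n with
    | zero => intro a ha; simpa using ha
    | succ n ih => intro a ha; rw [pow_succ', MulAut.mul_apply]; exact hσ i _ (ih a ha)
  have hσP : ((MulAut.conjNormal x : MulAut N) ^ (p ^ k)) = 1 := by
    rw [← map_pow, hx, map_one]
  have hfin : IsOfFinOrder x := isOfFinOrder_iff_pow_eq_one.mpr ⟨p ^ k, pow_pos hp.pos k, hx⟩
  have hnat : ∀ j : ℤ, ∃ n : ℕ, x ^ n = x ^ j := by
    intro j
    have h1 : x ^ j ∈ Submonoid.powers x := hfin.mem_powers_iff_mem_zpowers.mpr ⟨j, rfl⟩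
    exact h1
  have hxz : ∀ i (j : ℤ), ∀ a ∈ H i, (MulAut.conjNormal (x ^ j) : MulAut N) a ∈ H i := by
    intro i j a ha
    obtain ⟨n, hn⟩ := hnat j
    rw [← hn, map_pow]
    exact hσn i n a ha
  obtain ⟨Gam, hmem⟩ : ∃ Gam : ℕ → Subgroup G,
      ∀ i g, g ∈ Gam i ↔ ∃ a ∈ H i, ∃ j : ℤ, g = (a : G) * x ^ j := by
    refine ⟨fun i =>
      { carrier := {g | ∃ a ∈ H i, ∃ j : ℤ, g = (a : G) * x ^ j}
        mul_mem' := ?_
        one_mem' := ⟨1, (H i).one_mem, 0, by simp⟩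
        inv_mem' := ?_ }, fun i g => Iff.rfl⟩
    · rintro _ _ ⟨a, ha, j, rfl⟩ ⟨b, hb, l, rfl⟩
      refine ⟨a * MulAut.conjNormal (x ^ j) b, (H i).mul_mem ha (hxz i j b hb), j + l, ?_⟩
      rw [Subgroup.coe_mul, MulAut.conjNormal_apply, zpow_add]
      group
    · rintro _ ⟨a, ha, j, rfl⟩
      refine ⟨MulAut.conjNormal (x ^ (-j)) a⁻¹, hxz i (-j) _ ((H i).inv_mem ha), -j, ?_⟩
      rw [MulAut.conjNormal_apply, Subgroup.coe_inv]
      group
  have hGN : ∀ i (n : N), (n : G) ∈ Gam i → n ∈ H i := by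
    intro i n hn
    obtain ⟨a, ha, j, hj⟩ := (hmem _ _).mp hn
    have h1 : x ^ j ∈ N := by
      have h0 : x ^ j = (a : G)⁻¹ * n := by rw [hj]; group
      rw [h0]
      exact N.mul_mem (N.inv_mem a.2) n.2
    have h2 : (x ^ j) ^ (p ^ k) = 1 := by
      rw [← zpow_natCast, ← zpow_mul, mul_comm, zpow_mul, zpow_natCast, hx, one_zpow]
    have h3 : x ^ j = 1 := hp' _ h1 k h2
    rw [h3, mul_one] at hj
    have h4 : n = a := Subtype.ext hj
    rw [h4]
    exact ha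
  have key : ∀ i, ∀ m ∈ H i, m * (MulAut.conjNormal x m)⁻¹ ∈ H (i+1) → m ∈ H (i+1) := by
    intro i m hm hmm
    have hmP : m ^ (p ^ k) ∈ H (i+1) := by
      letI : CommGroup N :=
        { (inferInstance : Group N) with mul_comm := fun a b => Subtype.ext (hcomm a a.2 b b.2) }
      exact Z06_aux (MulAut.conjNormal x : MulAut N) (p ^ k) hσP (H (i+1)) (hσ (i+1)) m
        (hR i hm) hmm
    have hcop : Nat.Coprime (p ^ k) (orderOf m) := by
      apply Nat.Coprime.pow_left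
      rw [hp.coprime_iff_not_dvd]
      rintro ⟨c, hc⟩
      obtain ⟨t, ht, hmt⟩ := htor m m.2
      have hmt' : m ^ t = 1 := Subtype.ext (by simpa using hmt)
      have ho : 0 < orderOf m :=
        orderOf_pos_iff.mpr (isOfFinOrder_iff_pow_eq_one.mpr ⟨t, ht, hmt'⟩)
      have h0 : (m ^ c) ^ (p ^ 1) = 1 := by
        rw [pow_one, ← pow_mul, mul_comm c p, ← hc, pow_orderOf_eq_one]
      have h1 : m ^ c = 1 := by
        apply Subtype.ext
        have h0' := congrArg (Subtype.val : N → G) h0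
        exact hp' _ (m ^ c).2 1 h0'
      have h2 := orderOf_dvd_of_pow_eq_one h1
      have hc0 : 0 < c := Nat.pos_of_ne_zero (by rintro rfl; rw [mul_zero] at hc; omega)
      have h3 := Nat.le_of_dvd hc0 h2
      have h4 := hp.two_le
      nlinarith
    obtain ⟨l, hl⟩ := exists_pow_eq_self_of_coprime hcop
    rw [← hl]
    exact (H (i+1)).pow_mem hmP l
  apply hPM
  refine ⟨Gam, fun i => ?_⟩
  obtain ⟨m, hm, hm'⟩ := SetLike.exists_of_lt (hlt i)
  have hxG : ∀ i, x ∈ Gam i := fun i => (hmem _ _).mpr ⟨1, one_mem _, 1, by simp⟩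
  have hyi : (m : G) * x * (m : G)⁻¹ ∈ Gam i := by
    have e1 : (m : G) ∈ Gam i := (hmem _ _).mpr ⟨m, hm, 0, by simp⟩
    exact mul_mem (mul_mem e1 (hxG i)) (inv_mem e1)
  have hyn : (m : G) * x * (m : G)⁻¹ ∉ Gam (i+1) := by
    intro hy
    have e3 : ((m * (MulAut.conjNormal x m)⁻¹ : N) : G) ∈ Gam (i+1) := by
      have e4 : ((m * (MulAut.conjNormal x m)⁻¹ : N) : G) = (m : G) * x * (m : G)⁻¹ * x⁻¹ := by
        rw [Subgroup.coe_mul, Subgroup.coe_inv, MulAut.conjNormal_apply]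
        group
      rw [e4]
      exact mul_mem hy (inv_mem (hxG _))
    exact hm' (key i m hm (hGN _ _ e3))
  refine ⟨lt_of_le_of_ne ?_ ?_, ⟨_, hyi, hyn, k, ?_⟩⟩
  · intro g hg
    obtain ⟨a, ha, j, rfl⟩ := (hmem _ _).mp hg
    exact (hmem _ _).mpr ⟨a, (hlt i).le ha, j, rfl⟩
  · intro heq
    exact hyn (heq ▸ hyi)
  · rw [conj_pow, hx]
    simp

end PMin
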