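import Pool.Agent.H631.PM.Defs

namespace PMin

/-! TARGET: prove the following -/

theorem fin_index_comm {G : Type} [Group G] (p : ℕ) (N L : Subgroup G) [L.Normal]
    (hLx : ∀ x : G, (∃ k : ℕ, x ^ (p ^ k) = 1) → ∀ n ∈ N, n⁻¹ * (x * n * x⁻¹) ∈ L)
    (n : G) (hn : n ∈ N) (x : G)
    (hx : x ∈ Subgroup.closure {g : G | ∃ k : ℕ, g ^ (p ^ k) = 1}) :
    n⁻¹ * (x * n * x⁻¹) ∈ L := by
  induction hx using Subgroup.closure_induction with
  | mem x hx => exact hLx x hx n hn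
  | one => simp
  | mul x y _ _ hx hy =>
    have h1 : x * (n⁻¹ * (y * n * y⁻¹)) * x⁻¹ ∈ L := ‹L.Normal›.conj_mem _ hy x
    have h2 := L.mul_mem hx h1
    have h3 : n⁻¹ * (x * n * x⁻¹) * (x * (n⁻¹ * (y * n * y⁻¹)) * x⁻¹) =
        n⁻¹ * (x * y * n * (x * y)⁻¹) := by group
    rwa [h3] at h2
  | inv x _ hx =>
    have h1 : x⁻¹ * (n⁻¹ * (x * n * x⁻¹))⁻¹ * x⁻¹⁻¹ ∈ L :=
      ‹L.Normal›.conj_mem _ (L.inv_mem hx) x⁻¹
    have h3 : x⁻¹ * (n⁻¹ * (x * n * x⁻¹))⁻¹ * x⁻¹⁻¹ = n⁻¹ * (x⁻¹ * n * x⁻¹⁻¹) := by group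
    rwa [h3] at h1

theorem fin_index_schur {X : Type} [Group X] (h : (Subgroup.center X).index ≠ 0) :
    Finite (commutator X) := by
  have hfi : (Subgroup.center X).FiniteIndex := ⟨h⟩
  have hf : (commutatorSet X).Finite := by
    refine Set.Finite.subset (Set.finite_range
      (fun q : (X ⧸ Subgroup.center X) × (X ⧸ Subgroup.center X) =>
        q.1.out * q.2.out * q.1.out⁻¹ * q.2.out⁻¹)) ?_
    rintro _ ⟨g, k, rfl⟩
    refine ⟨(QuotientGroup.mk g, QuotientGroup.mk k), ?_⟩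
    obtain ⟨z1, h1⟩ := QuotientGroup.mk_out_eq_mul (Subgroup.center X) g
    obtain ⟨z2, h2⟩ := QuotientGroup.mk_out_eq_mul (Subgroup.center X) k
    have hz1 : ∀ y : X, y * (z1 : X) = z1 * y := Subgroup.mem_center_iff.1 z1.2
    have hz2 : ∀ y : X, y * (z2 : X) = z2 * y := Subgroup.mem_center_iff.1 z2.2
    show (QuotientGroup.mk g : X ⧸ Subgroup.center X).out *
      (QuotientGroup.mk k : X ⧸ Subgroup.center X).out *
      (QuotientGroup.mk g : X ⧸ Subgroup.center X).out⁻¹ *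
      (QuotientGroup.mk k : X ⧸ Subgroup.center X).out⁻¹ = g * k * g⁻¹ * k⁻¹
    rw [h1, h2]
    simp only [mul_inv_rev]
    calc g * ↑z1 * (k * ↑z2) * ((↑z1)⁻¹ * g⁻¹) * ((↑z2)⁻¹ * k⁻¹)
        = (g * (↑z1 * k) * ↑z2) * (↑z1)⁻¹ * g⁻¹ * (↑z2)⁻¹ * k⁻¹ := by group
      _ = (g * (k * ↑z1) * ↑z2) * (↑z1)⁻¹ * g⁻¹ * (↑z2)⁻¹ * k⁻¹ := by rw [hz1 k]
      _ = g * k * (↑z1 * ↑z2) * (↑z1)⁻¹ * g⁻¹ * (↑z2)⁻¹ * k⁻¹ := by group
      _ = g * k * (↑z2 * ↑z1) * (↑z1)⁻¹ * g⁻¹ * (↑z2)⁻¹ * k⁻¹ := by rw [hz2 (z1 : X)]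
      _ = g * k * (↑z2 * g⁻¹) * (↑z2)⁻¹ * k⁻¹ := by group
      _ = g * k * (g⁻¹ * ↑z2) * (↑z2)⁻¹ * k⁻¹ := by rw [hz2 g⁻¹]
      _ = g * k * g⁻¹ * k⁻¹ := by group
  have : Finite (commutatorSet X) := hf.to_subtype
  infer_instance

theorem fin_index_pel {A : Type} [CommGroup A] (p : ℕ) (hp : p.Prime) (a : A) (k m : ℕ)
    (h1 : a ^ (p ^ k) = 1) (h2 : a ^ m = 1) (hm : ¬ p ∣ m) : a = 1 := by
  have hc : Nat.Coprime (p ^ k) m := Nat.Coprime.pow_left k ((Nat.Prime.coprime_iff_not_dvd hp).2 hm)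
  have h3 : orderOf a ∣ p ^ k := orderOf_dvd_of_pow_eq_one h1
  have h4 : orderOf a ∣ m := orderOf_dvd_of_pow_eq_one h2
  have h5 : orderOf a ∣ 1 := by
    rw [← hc]
    exact Nat.dvd_gcd h3 h4
  exact orderOf_eq_one_iff.1 (Nat.dvd_one.1 h5)

theorem fin_index {G : Type} [Group G] (p : ℕ) (hp : p.Prime)
    (htor : ∀ a : G, ∃ k : ℕ, 0 < k ∧ a ^ k = 1) (N : Subgroup G) [N.Normal] (hN : N.index ≠ 0)
    (hp' : ∀ a ∈ N, ∀ k : ℕ, a ^ (p ^ k) = 1 → a = 1) (L : Subgroup G) [L.Normal] (hL : L ≤ N)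
    (hLx : ∀ x : G, (∃ k : ℕ, x ^ (p ^ k) = 1) → ∀ n ∈ N, n⁻¹ * (x * n * x⁻¹) ∈ L) :
    L.relIndex (Subgroup.closure {g : G | ∃ k : ℕ, g ^ (p ^ k) = 1}) ≠ 0 := by
  set K : Subgroup G := Subgroup.closure {g : G | ∃ k : ℕ, g ^ (p ^ k) = 1} with hK
  have hL' : (L.subgroupOf K).Normal := Subgroup.normal_subgroupOf
  set π : K →* K ⧸ L.subgroupOf K := QuotientGroup.mk' (L.subgroupOf K) with hπ
  have hπs : Function.Surjective π := QuotientGroup.mk'_surjective _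
  set B : Subgroup (K ⧸ L.subgroupOf K) := (N.subgroupOf K).map π with hB
  have hBi : B.index ≠ 0 := by
    have h1 : B.index ∣ (N.subgroupOf K).index := Subgroup.index_map_dvd _ hπs
    have h2 : (N.subgroupOf K).index ∣ N.index := Subgroup.relIndex_dvd_index_of_normal N K
    exact ne_zero_of_dvd_ne_zero hN (h1.trans h2)
  have hBc : B ≤ Subgroup.center (K ⧸ L.subgroupOf K) := by
    rintro _ ⟨n, hn, rfl⟩
    rw [Subgroup.mem_center_iff]
    intro y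
    obtain ⟨x, rfl⟩ := hπs y
    rw [← map_mul, ← map_mul]
    refine (QuotientGroup.eq.2 ?_).symm
    rw [Subgroup.mem_subgroupOf]
    have h1 := fin_index_comm p N L hLx (n : G) hn (x : G) x.2
    have h2 : (x : G)⁻¹ * ((n : G)⁻¹ * ((x : G) * n * (x : G)⁻¹)) * ((x : G)⁻¹)⁻¹ ∈ L :=
      ‹L.Normal›.conj_mem _ h1 _
    have h3 : (x : G)⁻¹ * ((n : G)⁻¹ * ((x : G) * n * (x : G)⁻¹)) * ((x : G)⁻¹)⁻¹ =
        (((n * x)⁻¹ * (x * n) : K) : G) := by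
      push_cast
      group
    rwa [h3] at h2
  have hci : (Subgroup.center (K ⧸ L.subgroupOf K)).index ≠ 0 :=
    ne_zero_of_dvd_ne_zero hBi (Subgroup.index_dvd_of_le hBc)
  have hfin := fin_index_schur hci
  have hpel : ∀ (x : G) (hx : x ∈ K), ∃ k : ℕ,
      (Abelianization.of (π ⟨x, hx⟩)) ^ (p ^ k) = 1 := by
    intro x hx
    induction hx using Subgroup.closure_induction with
    | mem x hx =>
      obtain ⟨k, hk⟩ := hx
      refine ⟨k, ?_⟩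
      rw [← map_pow, ← map_pow]
      have h1 : (⟨x, Subgroup.subset_closure ⟨k, hk⟩⟩ : K) ^ (p ^ k) = 1 := Subtype.ext hk
      rw [h1, map_one, map_one]
    | one =>
      refine ⟨0, ?_⟩
      have h1 : (⟨1, K.one_mem⟩ : K) = 1 := rfl
      rw [h1, map_one, map_one, one_pow]
    | mul x y hx hy ihx ihy =>
      obtain ⟨k, hk⟩ := ihx
      obtain ⟨l, hl⟩ := ihy
      refine ⟨k + l, ?_⟩
      have h1 : (⟨x * y, K.mul_mem hx hy⟩ : K) = ⟨x, hx⟩ * ⟨y, hy⟩ := rfl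
      rw [h1, map_mul, map_mul, mul_pow, pow_add, pow_mul, hk, one_pow, one_mul, mul_comm,
        pow_mul, hl, one_pow]
    | inv x hx ihx =>
      obtain ⟨k, hk⟩ := ihx
      refine ⟨k, ?_⟩
      have h1 : (⟨x⁻¹, K.inv_mem hx⟩ : K) = (⟨x, hx⟩ : K)⁻¹ := rfl
      rw [h1, map_inv, map_inv, inv_pow, hk, inv_one]
  have hBd : B ≤ commutator (K ⧸ L.subgroupOf K) := by
    rintro _ ⟨n, hn, rfl⟩
    have hnN : (n : G) ∈ N := hn
    obtain ⟨k, hk⟩ := hpel n n.2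
    obtain ⟨m, hm0, hm⟩ := htor (n : G)
    have hfo : IsOfFinOrder (n : G) := isOfFinOrder_iff_pow_eq_one.2 ⟨m, hm0, hm⟩
    have ho : 0 < orderOf (n : G) := hfo.orderOf_pos
    have hnd : ¬ p ∣ orderOf (n : G) := by
      rintro ⟨r, hr⟩
      have hr0 : 0 < r := by
        rcases Nat.eq_zero_or_pos r with h | h
        · rw [h, mul_zero] at hr; omega
        · exact h
      have h1 : ((n : G) ^ r) ^ (p ^ 1) = 1 := by
        rw [← pow_mul, pow_one, mul_comm, ← hr]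
        exact pow_orderOf_eq_one _
      have h2 := hp' _ (N.pow_mem hnN r) 1 h1
      have h3 : orderOf (n : G) ∣ r := orderOf_dvd_of_pow_eq_one h2
      have h4 := Nat.le_of_dvd hr0 h3
      have h5 := hp.two_le
      nlinarith
    have h6 : (Abelianization.of (π n)) ^ (orderOf (n : G)) = 1 := by
      rw [← map_pow, ← map_pow]
      have h7 : n ^ (orderOf (n : G)) = 1 := Subtype.ext (pow_orderOf_eq_one (n : G))
      rw [h7, map_one, map_one]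
    have h8 : Abelianization.of (π n) = 1 := fin_index_pel p hp _ k _ hk h6 hnd
    rw [← Abelianization.ker_of]
    exact h8
  have hBf : Finite B := Finite.of_injective (Subgroup.inclusion hBd)
    (Subgroup.inclusion_injective hBd)
  have hcard : Nat.card (K ⧸ L.subgroupOf K) ≠ 0 := by
    rw [← B.card_mul_index]
    exact mul_ne_zero Nat.card_pos.ne' hBi
  exact hcard

end PMin
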