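import Pool.Agent.H631.PM.Defs
import Pool.Agent.H631.PM.Z02
import Pool.Agent.H631.PM.Z05
import Pool.Agent.H631.PM.Z06
import Pool.Agent.H631.PM.Z07

namespace PMin

/-! TARGET: prove the following -/

theorem rx_gen {G : Type} [Group G] (N : Subgroup G) [N.Normal] (g x : G) (n : N) :
    (MulAut.conjNormal g n)⁻¹ * MulAut.conjNormal (g * x * g⁻¹) (MulAut.conjNormal g n) =
      MulAut.conjNormal g (n⁻¹ * MulAut.conjNormal x n) := by
  apply Subtype.ext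
  simp only [Subgroup.coe_mul, Subgroup.coe_inv, MulAut.conjNormal_apply]
  group

theorem main_ab (p : ℕ) (hp : p.Prime) (G : Type) [Group G]
    (hlf : ∀ s : Set G, s.Finite → (Subgroup.closure s : Set G).Finite) (hPM : PM p G)
    (N : Subgroup G) (hNn : N.Normal) (hN : N.index ≠ 0) (hcomm : ∀ a ∈ N, ∀ b ∈ N, a * b = b * a)
    (hp' : ∀ a ∈ N, ∀ k : ℕ, a ^ (p ^ k) = 1 → a = 1) :
    ∃ A : Subgroup G,
      A ≤ Subgroup.closure {g : G | ∃ k : ℕ, g ^ (p ^ k) = 1} ∧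
      (A.subgroupOf (Subgroup.closure {g : G | ∃ k : ℕ, g ^ (p ^ k) = 1})).Normal ∧
      A.relIndex (Subgroup.closure {g : G | ∃ k : ℕ, g ^ (p ^ k) = 1}) ≠ 0 ∧
      (∀ a ∈ A, ∀ b ∈ A, a * b = b * a) ∧
      (∀ a ∈ A, ∀ m : ℕ, 0 < m → ∃ b ∈ A, b ^ m = a) ∧
      {a : G | a ∈ A ∧ ∃ q : ℕ, q.Prime ∧ a ^ q = 1}.Finite := by
  have htor : ∀ a : G, ∃ k : ℕ, 0 < k ∧ a ^ k = 1 := by
    intro a
    have h1 := hlf {a} (Set.finite_singleton a)
    rw [← Subgroup.zpowers_eq_closure] at h1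
    exact isOfFinOrder_iff_pow_eq_one.1 (finite_zpowers.1 h1)
  have hcN : ∀ a b : N, a * b = b * a := fun a b => Subtype.ext (hcomm a a.2 b b.2)
  letI cg : CommGroup N := { (inferInstance : Group N) with mul_comm := hcN }
  have htorN : ∀ a : N, ∃ k : ℕ, 0 < k ∧ a ^ k = 1 := by
    intro a
    obtain ⟨k, hk, h⟩ := htor (a : G)
    exact ⟨k, hk, Subtype.ext (by rw [Subgroup.coe_pow]; exact h)⟩
  have hFD : ∀ x : G, (∃ k : ℕ, x ^ (p ^ k) = 1) → FD (Rx N x) := by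
    rintro x ⟨k, hk⟩
    refine fd_of_dcc htorN (MulAut.conjNormal x) (p ^ k) (pow_pos hp.pos k) ?_ (Rx N x) ?_ ?_
    · intro a
      rw [← map_pow, hk, map_one]; rfl
    · have h1 : Rx N x ≤ (Rx N x).comap (MulAut.conjNormal x : N ≃* N).toMonoidHom := by
        unfold Rx
        rw [Subgroup.closure_le]
        rintro _ ⟨n, rfl⟩
        refine Subgroup.subset_closure ⟨MulAut.conjNormal x n, ?_⟩
        show _ = MulAut.conjNormal x (n⁻¹ * MulAut.conjNormal x n)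
        rw [map_mul, map_inv]
      exact fun a ha => h1 ha
    · exact pmin_dcc p hp hPM N hcomm (fun a _ => htor a) hp' x k hk
  obtain ⟨S, hS⟩ : ∃ S : Set (Subgroup N), S = {R | ∃ x : G, (∃ k : ℕ, x ^ (p ^ k) = 1) ∧ R = Rx N x} :=
    ⟨_, rfl⟩
  have hSfin : S.Finite := by
    haveI : N.FiniteIndex := ⟨hN⟩
    haveI : Finite (G ⧸ N) := inferInstance
    refine (Set.finite_range (fun q : G ⧸ N => Rx N (Quotient.out q))).subset ?_
    rw [hS]
    rintro R ⟨x, _, rfl⟩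
    refine ⟨(x : G ⧸ N), ?_⟩
    show Rx N (Quotient.out (x : G ⧸ N)) = Rx N x
    have h1 : (Quotient.out (x : G ⧸ N))⁻¹ * x ∈ N := QuotientGroup.eq.1 (QuotientGroup.out_eq' _)
    unfold Rx
    congr 2
    funext n
    congr 1
    apply Subtype.ext
    rw [MulAut.conjNormal_apply, MulAut.conjNormal_apply]
    have h2 := hcomm _ h1 n n.2
    have h3 : x = Quotient.out (x : G ⧸ N) * ((Quotient.out (x : G ⧸ N))⁻¹ * x) := by group
    generalize (Quotient.out (x : G ⧸ N))⁻¹ * x = m at *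
    generalize Quotient.out (x : G ⧸ N) = y at *
    rw [h3]
    calc y * n * y⁻¹ = y * (n * m * m⁻¹) * y⁻¹ := by group
      _ = y * (m * n * m⁻¹) * y⁻¹ := by rw [h2]
      _ = y * m * n * (y * m)⁻¹ := by group
  have hFDS : ∀ R ∈ S, FD R := by
    rw [hS]
    rintro R ⟨x, hx, rfl⟩
    exact hFD x hx
  have hFD0 : FD (sSup S) := fd_iSup htorN S hSfin hFDS
  obtain ⟨L0, hL0⟩ : ∃ L0 : Subgroup N, L0 = sSup S := ⟨_, rfl⟩
  have hRle : ∀ x : G, (∃ k : ℕ, x ^ (p ^ k) = 1) → Rx N x ≤ L0 := by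
    intro x hx
    rw [hL0]
    exact le_sSup (by rw [hS]; exact ⟨x, hx, rfl⟩)
  have hL0inv : ∀ g : G, ∀ a ∈ L0, MulAut.conjNormal g a ∈ L0 := by
    intro g
    have h1 : sSup S ≤ L0.comap (MulAut.conjNormal g : N ≃* N).toMonoidHom := by
      refine sSup_le ?_
      rw [hS]
      rintro R ⟨x, ⟨k, hk⟩, rfl⟩
      unfold Rx
      rw [Subgroup.closure_le]
      rintro _ ⟨n, rfl⟩
      refine hRle (g * x * g⁻¹) ⟨k, by rw [conj_pow, hk]; group⟩ ?_
      exact Subgroup.subset_closure ⟨MulAut.conjNormal g n, rx_gen N g x n⟩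
    intro a ha
    rw [hL0] at ha
    exact h1 ha
  rw [← hL0] at hFD0
  obtain ⟨⟨D0, hD0L, hD0i, hD0d⟩, hsoc⟩ := hFD0
  obtain ⟨K, hK⟩ : ∃ K : Subgroup G, K = Subgroup.closure {g : G | ∃ k : ℕ, g ^ (p ^ k) = 1} :=
    ⟨_, rfl⟩
  have hLK : L0.map N.subtype ≤ K := by
    rw [Subgroup.map_le_iff_le_comap, hL0]
    refine sSup_le ?_
    rw [hS]
    rintro R ⟨x, ⟨k, hk⟩, rfl⟩
    unfold Rx
    rw [Subgroup.closure_le]
    rintro _ ⟨n, rfl⟩
    show ((n⁻¹ * MulAut.conjNormal x n : N) : G) ∈ K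
    rw [Subgroup.coe_mul, MulAut.conjNormal_apply, Subgroup.coe_inv]
    have e1 : (n : G)⁻¹ * (x * n * x⁻¹) = ((n : G)⁻¹ * x * ((n : G)⁻¹)⁻¹) * x⁻¹ := by group
    rw [e1, hK]
    refine mul_mem (Subgroup.subset_closure ⟨k, ?_⟩) (Subgroup.subset_closure ⟨k, ?_⟩)
    · rw [conj_pow, hk]; group
    · rw [inv_pow, hk, inv_one]
  have hLnormal : (L0.map N.subtype).Normal := by
    constructor
    rintro _ ⟨a, ha, rfl⟩ g
    refine ⟨MulAut.conjNormal g a, hL0inv g a ha, ?_⟩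
    rw [Subgroup.coe_subtype, MulAut.conjNormal_apply]
  have hLN : L0.map N.subtype ≤ N := Subgroup.map_subtype_le L0
  have hLidx : (L0.map N.subtype).relIndex K ≠ 0 := by
    rw [hK]
    refine fin_index p hp htor N hN hp' (L0.map N.subtype) hLN ?_
    intro x hx n hn
    refine ⟨(⟨n, hn⟩ : N)⁻¹ * MulAut.conjNormal x ⟨n, hn⟩, hRle x hx ?_, ?_⟩
    · exact Subgroup.subset_closure ⟨⟨n, hn⟩, rfl⟩
    · rw [Subgroup.coe_subtype, Subgroup.coe_mul, MulAut.conjNormal_apply, Subgroup.coe_inv]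
  have hpowm : ∀ l ∈ L0, l ^ (D0.relIndex L0) ∈ D0 := by
    intro l hl
    haveI : (D0.subgroupOf L0).Normal := inferInstance
    have h1 := Subgroup.pow_index_mem (D0.subgroupOf L0) (⟨l, hl⟩ : L0)
    exact h1
  have hD0inv : ∀ g : G, ∀ a ∈ D0, MulAut.conjNormal g a ∈ D0 := by
    intro g a ha
    obtain ⟨b, hb, hba⟩ := hD0d a ha (D0.relIndex L0) (Nat.pos_of_ne_zero hD0i)
    rw [← hba, map_pow]
    exact hpowm _ (hL0inv g b (hD0L hb))
  have hAnormal : (D0.map N.subtype).Normal := by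
    constructor
    rintro _ ⟨a, ha, rfl⟩ g
    refine ⟨MulAut.conjNormal g a, hD0inv g a ha, ?_⟩
    rw [Subgroup.coe_subtype, MulAut.conjNormal_apply]
  have hAL : D0.map N.subtype ≤ L0.map N.subtype := Subgroup.map_mono hD0L
  rw [← hK]
  refine ⟨D0.map N.subtype, hAL.trans hLK, ?_, ?_, ?_, ?_, ?_⟩
  · exact hAnormal.subgroupOf K
  · have h9 := Subgroup.relIndex_mul_relIndex (D0.map N.subtype) (L0.map N.subtype) K hAL hLK
    have h10 : (D0.map N.subtype).relIndex (L0.map N.subtype) = D0.relIndex L0 :=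
      Subgroup.relIndex_map_map_of_injective D0 L0 N.subtype_injective
    rw [h10] at h9
    rw [← h9]
    exact mul_ne_zero hD0i hLidx
  · rintro _ ⟨a, _, rfl⟩ _ ⟨b, _, rfl⟩
    exact hcomm a a.2 b b.2
  · rintro _ ⟨a, ha, rfl⟩ m hm
    obtain ⟨b, hb, hba⟩ := hD0d a ha m hm
    exact ⟨N.subtype b, ⟨b, hb, rfl⟩, by rw [← map_pow, hba]⟩
  · refine (hsoc.image N.subtype).subset ?_
    rintro _ ⟨⟨a, ha, rfl⟩, q, hq, haq⟩
    refine ⟨a, ⟨hD0L ha, q, hq, ?_⟩, rfl⟩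
    rw [← map_pow] at haq
    exact N.subtype_injective (haq.trans (map_one _).symm)

end PMin
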