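import Pool.Agent.H631.PM.Z01
import Pool.Agent.H631.PM.Z02
import Pool.Agent.H631.PM.Z03
import Pool.Agent.H631.PM.Z04
import Pool.Agent.H631.PM.Z05
import Pool.Agent.H631.PM.Z06
import Pool.Agent.H631.PM.Z07
import Pool.Agent.H631.PM.Z08
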