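import Mathlib

set_option autoImplicit false

namespace PMin

/-- the abelian subgroup `R` has a divisible subgroup of finite index and finitely many elements of
prime order -/
def FD {M : Type} [CommGroup M] (R : Subgroup M) : Prop :=
  (∃ D : Subgroup M, D ≤ R ∧ D.relIndex R ≠ 0 ∧ ∀ a ∈ D, ∀ m : ℕ, 0 < m → ∃ b ∈ D, b ^ m = a) ∧
    {a : M | a ∈ R ∧ ∃ q : ℕ, q.Prime ∧ a ^ q = 1}.Finite

/-- the subgroup generated by the elements `n⁻¹ n^x` of the normal subgroup `N` -/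
def Rx {G : Type} [Group G] (N : Subgroup G) [N.Normal] (x : G) : Subgroup N :=
  Subgroup.closure (Set.range fun n : N => n⁻¹ * MulAut.conjNormal x n)

/-- `p`-minimal condition -/
def PM (p : ℕ) (G : Type) [Group G] : Prop :=
  ¬ ∃ H : ℕ → Subgroup G, ∀ i : ℕ, H (i + 1) < H i ∧
        ∃ g ∈ H i, g ∉ H (i + 1) ∧ ∃ k : ℕ, g ^ (p ^ k) = 1

end PMin
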