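import Pool.Agent.H631.PM.All

namespace PMin

theorem main_top (p : ℕ) (hp : p.Prime) (G : Type) [Group G]
    (hlf : ∀ s : Set G, s.Finite → (Subgroup.closure s : Set G).Finite) (hPM : PM p G)
    (H N : Subgroup G) (hNH : N ≤ H) (hn : (N.subgroupOf H).Normal) (hfin : N.relIndex H ≠ 0)
    (hcomm : ∀ a ∈ N, ∀ b ∈ N, a * b = b * a)
    (hp' : ∀ a ∈ N, ∀ k : ℕ, a ^ (p ^ k) = 1 → a = 1)
    (hH : ∀ x : G, ∀ k : ℕ, x ^ (p ^ k) = 1 → x ∈ H) :
    ∃ A : Subgroup G,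
      A ≤ Subgroup.closure {g : G | ∃ k : ℕ, g ^ (p ^ k) = 1} ∧
      (A.subgroupOf (Subgroup.closure {g : G | ∃ k : ℕ, g ^ (p ^ k) = 1})).Normal ∧
      A.relIndex (Subgroup.closure {g : G | ∃ k : ℕ, g ^ (p ^ k) = 1}) ≠ 0 ∧
      (∀ a ∈ A, ∀ b ∈ A, a * b = b * a) ∧
      (∀ a ∈ A, ∀ m : ℕ, 0 < m → ∃ b ∈ A, b ^ m = a) ∧
      {a : G | a ∈ A ∧ ∃ q : ℕ, q.Prime ∧ a ^ q = 1}.Finite := by
  have hlfH : ∀ s : Set H, s.Finite → (Subgroup.closure s : Set H).Finite := by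
    intro s hs
    have h1 := hlf ((H.subtype : H → G) '' s) (hs.image _)
    have h2 : Subgroup.closure ((H.subtype : H → G) '' s) = (Subgroup.closure s).map H.subtype :=
      (MonoidHom.map_closure H.subtype s).symm
    rw [h2] at h1
    have h3 : (H.subtype : H → G) '' (Subgroup.closure s : Set H) =
        ((Subgroup.closure s).map H.subtype : Subgroup G) := by
      rw [Subgroup.coe_map]
    rw [← h3] at h1
    exact Set.Finite.of_finite_image h1 (H.subtype_injective.injOn)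
  have hPMH : PM p H := by
    rintro ⟨Γ, hΓ⟩
    refine hPM ⟨fun i => (Γ i).map H.subtype, fun i => ⟨?_, ?_⟩⟩
    · exact (Subgroup.map_lt_map_iff_of_injective H.subtype_injective).2 (hΓ i).1
    · obtain ⟨g, hg, hg2, k, hk⟩ := (hΓ i).2
      refine ⟨g, ⟨g, hg, rfl⟩, ?_, k, ?_⟩
      · rintro ⟨g', hg', hgg⟩
        have : g' = g := H.subtype_injective hgg
        rw [this] at hg'
        exact hg2 hg'
      · have := congrArg (H.subtype) hk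
        simpa using this
  have hcl : Subgroup.closure {g : G | ∃ k : ℕ, g ^ (p ^ k) = 1} =
      (Subgroup.closure {g : H | ∃ k : ℕ, g ^ (p ^ k) = 1}).map H.subtype := by
    rw [MonoidHom.map_closure]
    congr 1
    ext g
    constructor
    · rintro ⟨k, hk⟩
      exact ⟨⟨g, hH g k hk⟩, ⟨k, Subtype.ext (by simpa using hk)⟩, rfl⟩
    · rintro ⟨g', ⟨k, hk⟩, rfl⟩
      exact ⟨k, by simpa using congrArg H.subtype hk⟩
  obtain ⟨A, h1, h2, h3, h4, h5, h6⟩ := main_ab p hp H hlfH hPMH (N.subgroupOf H) hn hfin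
    (fun a ha b hb => Subtype.ext (hcomm a ha b hb))
    (fun a ha k hk => Subtype.ext (hp' a ha k (by simpa using congrArg H.subtype hk)))
  refine ⟨A.map H.subtype, ?_, ?_, ?_, ?_, ?_, ?_⟩
  · rw [hcl]
    exact Subgroup.map_mono h1
  · rw [hcl]
    refine ⟨?_⟩
    rintro ⟨a, ha'⟩ ha ⟨g, hg⟩
    obtain ⟨a₀, ha₀, rfl⟩ := ha
    obtain ⟨g₀, hg₀, rfl⟩ := hg
    have := h2.conj_mem ⟨a₀, h1 ha₀⟩ ha₀ ⟨g₀, hg₀⟩
    exact ⟨g₀ * a₀ * g₀⁻¹, this, rfl⟩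
  · rw [hcl, Subgroup.relIndex_map_map]
    rw [(MonoidHom.ker_eq_bot_iff H.subtype).2 H.subtype_injective, sup_bot_eq, sup_bot_eq]
    exact h3
  · rintro _ ⟨a, ha, rfl⟩ _ ⟨b, hb, rfl⟩
    exact congrArg H.subtype (h4 a ha b hb)
  · rintro _ ⟨a, ha, rfl⟩ m hm
    obtain ⟨b, hb, hbm⟩ := h5 a ha m hm
    exact ⟨b, ⟨b, hb, rfl⟩, by simpa using congrArg H.subtype hbm⟩
  · refine (h6.image H.subtype).subset ?_
    rintro _ ⟨⟨a, ha, rfl⟩, q, hq, hq2⟩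
    exact ⟨a, ⟨ha, q, hq, Subtype.ext (by simpa using hq2)⟩, rfl⟩

end PMin
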